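import Pool.Agent.Q296.CT.Lim

/-! # The block row sum of a random contingency table is not centred at `B_c C n`

For `C = 1/3`, `B = 7 > B_c = 3` and `δ = 3/4` the first-row sum over the light columns is, along
`n = 81 m⁴`, below `n - 2 d = B_c C n - 2 n^{3/4}` with probability tending to one, so the
conjectured central limit theorem fails. -/

set_option autoImplicit false

namespace Pool.Agent.Results.MP_1d48d5_pr.BlockSumMeanShift

open Filter Topology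

/-- `d = ⌊n^δ⌋`, the number of heavy rows (columns). -/
noncomputable def dd (δ : ℝ) (n : ℕ) : ℕ := ⌊(n : ℝ) ^ δ⌋₊

/-- The margin vector `r`, indexed by the `d` heavy and the `n` light indices. -/
noncomputable def margin (B C δ : ℝ) (n : ℕ) : Fin (dd δ n) ⊕ Fin n → ℕ :=
  Sum.elim (fun _ => ⌊B * C * n⌋₊) (fun _ => ⌊C * n⌋₊)

/-- The set `M_{n,δ}(B,C)` of contingency tables with row and column margins `r`. -/
def Tables (B C δ : ℝ) (n : ℕ) :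
    Set (Fin (dd δ n) ⊕ Fin n → Fin (dd δ n) ⊕ Fin n → ℕ) :=
  {X | (∀ x, ∑ y, X x y = margin B C δ n x) ∧ ∀ y, ∑ x, X x y = margin B C δ n y}

/-- `S_{n,δ}(B,C)`: the sum of the entries of the first (heavy) row in the `n` light columns. -/
noncomputable def S (δ : ℝ) (n : ℕ) (X : Fin (dd δ n) ⊕ Fin n → Fin (dd δ n) ⊕ Fin n → ℕ) : ℕ :=
  if h : 0 < dd δ n then ∑ k : Fin n, X (Sum.inl ⟨0, h⟩) (Sum.inr k) else 0

/-- `P(S_{n,δ}(B,C) ∈ A)` for a uniformly random table. -/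
noncomputable def prob (B C δ : ℝ) (n : ℕ) (A : Set ℕ) : ℝ :=
  ({X | X ∈ Tables B C δ n ∧ S δ n X ∈ A}.ncard : ℝ) / ((Tables B C δ n).ncard : ℝ)

/-- The critical value `B_c`. -/
noncomputable def Bc (C : ℝ) : ℝ := 1 + Real.sqrt (1 + 1 / C)

/-- `(S - B_c C n)/√n` converges in distribution to the centred normal law of variance
`B_c C + (B_c C)²`: its distribution function converges at every real `t`. -/
def CLT (B C δ : ℝ) : Prop :=
  ∀ t : ℝ, Tendsto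
    (fun n : ℕ => prob B C δ n {s : ℕ | ((s : ℝ) - Bc C * C * n) / Real.sqrt n ≤ t}) atTop
    (𝓝 ((ProbabilityTheory.gaussianReal 0
      (Real.toNNReal (Bc C * C + (Bc C * C) ^ 2))) (Set.Iic t)).toReal)

lemma dd_eq (m : ℕ) : dd (3 / 4) (81 * m ^ 4) = 27 * m ^ 3 := by
  unfold dd
  have h : (((81 * m ^ 4 : ℕ) : ℝ)) ^ (3 / 4 : ℝ) = ((27 * m ^ 3 : ℕ) : ℝ) := by
    have h3 : (0 : ℝ) ≤ 3 * m := by positivity
    have : ((81 * m ^ 4 : ℕ) : ℝ) = (3 * (m : ℝ)) ^ (4 : ℝ) := by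
      rw [show (4 : ℝ) = ((4 : ℕ) : ℝ) by norm_num, Real.rpow_natCast]
      push_cast; ring
    rw [this, ← Real.rpow_mul h3]
    rw [show (4 : ℝ) * (3 / 4) = ((3 : ℕ) : ℝ) by norm_num, Real.rpow_natCast]
    push_cast; ring
  rw [h, Nat.floor_natCast]

lemma Bc_third : Bc (1 / 3) = 3 := by
  unfold Bc
  have : (1 : ℝ) + 1 / (1 / 3) = 2 ^ 2 := by norm_num
  rw [this, Real.sqrt_sq (by norm_num)]
  norm_num

lemma margin_eq (m : ℕ) (x : Fin (dd (3 / 4) (81 * m ^ 4)) ⊕ Fin (81 * m ^ 4)) :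
    margin 7 (1 / 3) (3 / 4) (81 * m ^ 4) x = Q296.CT.marg (189 * m ^ 4) (27 * m ^ 4) x := by
  have h1 : ⌊(7 : ℝ) * (1 / 3) * ((81 * m ^ 4 : ℕ) : ℝ)⌋₊ = 189 * m ^ 4 := by
    have : (7 : ℝ) * (1 / 3) * ((81 * m ^ 4 : ℕ) : ℝ) = ((189 * m ^ 4 : ℕ) : ℝ) := by
      push_cast; ring
    rw [this, Nat.floor_natCast]
  have h2 : ⌊(1 / 3 : ℝ) * ((81 * m ^ 4 : ℕ) : ℝ)⌋₊ = 27 * m ^ 4 := by
    have : (1 / 3 : ℝ) * ((81 * m ^ 4 : ℕ) : ℝ) = ((27 * m ^ 4 : ℕ) : ℝ) := by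
      push_cast; ring
    rw [this, Nat.floor_natCast]
  unfold margin Q296.CT.marg
  rw [h1, h2]

lemma Tables_eq (m : ℕ) : Tables 7 (1 / 3) (3 / 4) (81 * m ^ 4) =
    ↑(Q296.CT.Full (Fin (dd (3 / 4) (81 * m ^ 4))) (Fin (81 * m ^ 4)) (189 * m ^ 4)
      (27 * m ^ 4)) := by
  ext X
  rw [Finset.mem_coe, Q296.CT.mem_Full]
  unfold Tables
  simp only [Set.mem_ofPred_eq, margin_eq]

lemma Tables_nonempty (B C δ : ℝ) (n : ℕ) : (Tables B C δ n).Nonempty := by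
  classical
  refine ⟨fun x y => if x = y then margin B C δ n x else 0, fun x => ?_, fun y => ?_⟩
  · rw [Finset.sum_ite_eq]; simp
  · rw [Finset.sum_ite_eq']; simp

lemma card_pos (m : ℕ) : 0 < ((Tables 7 (1 / 3) (3 / 4) (81 * m ^ 4)).ncard : ℝ) := by
  have h1 := Tables_nonempty 7 (1 / 3) (3 / 4) (81 * m ^ 4)
  have h2 : (Tables 7 (1 / 3) (3 / 4) (81 * m ^ 4)).Finite := by
    rw [Tables_eq]; exact Finset.finite_toSet _
  exact_mod_cast (Set.ncard_pos h2).2 h1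

lemma prob_add_compl (m : ℕ) (A : Set ℕ) :
    prob 7 (1 / 3) (3 / 4) (81 * m ^ 4) A + prob 7 (1 / 3) (3 / 4) (81 * m ^ 4) Aᶜ = 1 := by
  have h0 := card_pos m
  have h2 : (Tables 7 (1 / 3) (3 / 4) (81 * m ^ 4)).Finite := by
    rw [Tables_eq]; exact Finset.finite_toSet _
  unfold prob
  rw [← add_div, div_eq_one_iff_eq h0.ne', ← Nat.cast_add]
  congr 1
  have hd : Disjoint {X | X ∈ Tables 7 (1 / 3) (3 / 4) (81 * m ^ 4) ∧
      S (3 / 4) (81 * m ^ 4) X ∈ A} {X | X ∈ Tables 7 (1 / 3) (3 / 4) (81 * m ^ 4) ∧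
      S (3 / 4) (81 * m ^ 4) X ∈ Aᶜ} := by
    rw [Set.disjoint_left]
    rintro X ⟨_, hX⟩ ⟨_, hX'⟩
    exact hX' hX
  rw [← Set.ncard_union_eq hd (h2.subset (fun X hX => hX.1)) (h2.subset (fun X hX => hX.1))]
  congr 1
  ext X
  simp only [Set.mem_union, Set.mem_ofPred_eq, Set.mem_compl_iff]
  tauto

lemma prob_nonneg (B C δ : ℝ) (n : ℕ) (A : Set ℕ) : 0 ≤ prob B C δ n A := by
  unfold prob; positivity

lemma prob_mono (m : ℕ) {A B : Set ℕ} (h : A ⊆ B) :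
    prob 7 (1 / 3) (3 / 4) (81 * m ^ 4) A ≤ prob 7 (1 / 3) (3 / 4) (81 * m ^ 4) B := by
  have h0 := card_pos m
  have h2 : (Tables 7 (1 / 3) (3 / 4) (81 * m ^ 4)).Finite := by
    rw [Tables_eq]; exact Finset.finite_toSet _
  unfold prob
  apply div_le_div_of_nonneg_right _ h0.le
  have hsub : {X | X ∈ Tables 7 (1 / 3) (3 / 4) (81 * m ^ 4) ∧ S (3 / 4) (81 * m ^ 4) X ∈ A} ⊆
      {X | X ∈ Tables 7 (1 / 3) (3 / 4) (81 * m ^ 4) ∧ S (3 / 4) (81 * m ^ 4) X ∈ B} :=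
    fun X hX => ⟨hX.1, h hX.2⟩
  exact_mod_cast Set.ncard_le_ncard hsub (h2.subset (fun X hX => hX.1))

/-- the tail bound -/
lemma tail {η : ℝ} (hη : 0 < η) (hη1 : η ≤ 1) : ∃ m0 : ℕ, ∀ m : ℕ, m0 ≤ m →
    prob 7 (1 / 3) (3 / 4) (81 * m ^ 4) {s | 81 * m ^ 4 ≤ s + 2 * dd (3 / 4) (81 * m ^ 4)} ≤
      2 * η := by
  obtain ⟨m0, hm0⟩ := Q296.CT.mean_shift hη hη1
  refine ⟨max m0 1, fun m hm => ?_⟩
  have hm1 : 1 ≤ m := le_trans (le_max_right _ _) hm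
  have hd : 0 < dd (3 / 4) (81 * m ^ 4) := by rw [dd_eq]; positivity
  have key := hm0 m (le_trans (le_max_left _ _) hm) (Fin (dd (3 / 4) (81 * m ^ 4)))
    (Fin (81 * m ^ 4)) (by rw [Fintype.card_fin, dd_eq]) (Fintype.card_fin _) ⟨0, hd⟩
  have h0 := card_pos m
  unfold prob
  rw [div_le_iff₀ h0]
  have e1 : ((Tables 7 (1 / 3) (3 / 4) (81 * m ^ 4)).ncard : ℝ) =
      (Q296.CT.Full (Fin (dd (3 / 4) (81 * m ^ 4))) (Fin (81 * m ^ 4)) (189 * m ^ 4)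
        (27 * m ^ 4)).card := by
    rw [Tables_eq, Set.ncard_coe_finset]
  rw [e1]
  refine le_trans ?_ key
  rw [← Set.ncard_coe_finset]
  have : {X | X ∈ Tables 7 (1 / 3) (3 / 4) (81 * m ^ 4) ∧ S (3 / 4) (81 * m ^ 4) X ∈
      {s | 81 * m ^ 4 ≤ s + 2 * dd (3 / 4) (81 * m ^ 4)}} ⊆
      ↑(Q296.CT.ev (Fin (dd (3 / 4) (81 * m ^ 4))) (Fin (81 * m ^ 4)) (189 * m ^ 4)
        (27 * m ^ 4) (81 * m ^ 4 - 54 * m ^ 3) ⟨0, hd⟩) := by
    rintro X ⟨hX, hX2⟩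
    rw [Tables_eq] at hX
    unfold Q296.CT.ev
    rw [Finset.coe_filter]
    refine ⟨hX, ?_⟩
    simp only [Set.mem_ofPred_eq] at hX2
    unfold S at hX2
    rw [dif_pos hd] at hX2
    have hdd := dd_eq m
    omega
  exact_mod_cast Set.ncard_le_ncard this (Finset.finite_toSet _)

lemma tail_tendsto : Tendsto (fun m : ℕ => prob 7 (1 / 3) (3 / 4) (81 * m ^ 4)
    {s | 81 * m ^ 4 ≤ s + 2 * dd (3 / 4) (81 * m ^ 4)}) atTop (𝓝 0) := by
  rw [Metric.tendsto_atTop]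
  intro ε hε
  obtain ⟨m0, hm0⟩ := tail (η := min (ε / 4) 1) (by positivity) (min_le_right _ _)
  refine ⟨m0, fun m hm => ?_⟩
  have h1 := hm0 m hm
  rw [Real.dist_eq, sub_zero, abs_of_nonneg (prob_nonneg _ _ _ _ _)]
  have h2 : min (ε / 4) 1 ≤ ε / 4 := min_le_left _ _
  linarith

/-- the scaled sum goes to `-∞` along the subsequence -/
lemma to_one (t : ℝ) : Tendsto (fun m : ℕ => prob 7 (1 / 3) (3 / 4) (81 * m ^ 4)
    {s : ℕ | ((s : ℝ) - Bc (1 / 3) * (1 / 3) * ((81 * m ^ 4 : ℕ) : ℝ)) /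
      Real.sqrt ((81 * m ^ 4 : ℕ) : ℝ) ≤ t}) atTop (𝓝 1) := by
  have h1 : Tendsto (fun m : ℕ => 1 - prob 7 (1 / 3) (3 / 4) (81 * m ^ 4)
    {s | 81 * m ^ 4 ≤ s + 2 * dd (3 / 4) (81 * m ^ 4)}) atTop (𝓝 1) := by
    have := tail_tendsto.const_sub 1
    rwa [sub_zero] at this
  refine tendsto_of_tendsto_of_tendsto_of_le_of_le' h1 tendsto_const_nhds ?_ ?_
  · -- lower bound
    obtain ⟨m1, hm1⟩ := exists_nat_ge (-t)
    filter_upwards [eventually_ge_atTop (max m1 1)] with m hm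
    have hm1' : m1 ≤ m := le_trans (le_max_left _ _) hm
    have hm2 : 1 ≤ m := le_trans (le_max_right _ _) hm
    have h2 := prob_add_compl m {s : ℕ | ((s : ℝ) - Bc (1 / 3) * (1 / 3) *
      ((81 * m ^ 4 : ℕ) : ℝ)) / Real.sqrt ((81 * m ^ 4 : ℕ) : ℝ) ≤ t}
    have h3 : prob 7 (1 / 3) (3 / 4) (81 * m ^ 4) {s : ℕ | ((s : ℝ) - Bc (1 / 3) * (1 / 3) *
        ((81 * m ^ 4 : ℕ) : ℝ)) / Real.sqrt ((81 * m ^ 4 : ℕ) : ℝ) ≤ t}ᶜ ≤
        prob 7 (1 / 3) (3 / 4) (81 * m ^ 4)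
        {s | 81 * m ^ 4 ≤ s + 2 * dd (3 / 4) (81 * m ^ 4)} := by
      apply prob_mono
      intro s hs
      rw [Set.mem_compl_iff, Set.mem_ofPred_eq, not_le, Bc_third] at hs
      rw [Set.mem_ofPred_eq, dd_eq]
      by_contra hc
      push Not at hc
      have hsq : Real.sqrt ((81 * m ^ 4 : ℕ) : ℝ) = 9 * (m : ℝ) ^ 2 := by
        have : ((81 * m ^ 4 : ℕ) : ℝ) = (9 * (m : ℝ) ^ 2) ^ 2 := by push_cast; ring
        rw [this, Real.sqrt_sq (by positivity)]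
      have hmr : (1 : ℝ) ≤ m := by exact_mod_cast hm2
      rw [hsq, lt_div_iff₀ (by positivity)] at hs
      have hc' : (s : ℝ) + 54 * (m : ℝ) ^ 3 < 81 * (m : ℝ) ^ 4 := by
        have : s + 54 * m ^ 3 < 81 * m ^ 4 := by omega
        exact_mod_cast this
      push_cast at hs
      have ht : -t ≤ m := le_trans hm1 (by exact_mod_cast hm1')
      have h5 : -(m : ℝ) * (9 * (m : ℝ) ^ 2) ≤ t * (9 * (m : ℝ) ^ 2) := by
        apply mul_le_mul_of_nonneg_right _ (by positivity); linarith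
      have h6 : 0 ≤ (m : ℝ) ^ 3 := by positivity
      nlinarith
    linarith
  · -- upper bound
    filter_upwards with m
    have h2 := prob_add_compl m {s : ℕ | ((s : ℝ) - Bc (1 / 3) * (1 / 3) *
      ((81 * m ^ 4 : ℕ) : ℝ)) / Real.sqrt ((81 * m ^ 4 : ℕ) : ℝ) ≤ t}
    have h3 := prob_nonneg 7 (1 / 3) (3 / 4) (81 * m ^ 4) {s : ℕ | ((s : ℝ) - Bc (1 / 3) *
      (1 / 3) * ((81 * m ^ 4 : ℕ) : ℝ)) / Real.sqrt ((81 * m ^ 4 : ℕ) : ℝ) ≤ t}ᶜ
    linarith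

lemma not_CLT : ¬ CLT 7 (1 / 3) (3 / 4) := by
  intro h
  obtain ⟨v, hv⟩ : ∃ v : NNReal, v = Real.toNNReal
    (Bc (1 / 3) * (1 / 3) + (Bc (1 / 3) * (1 / 3)) ^ 2) := ⟨_, rfl⟩
  -- every value of the limiting distribution function would be `1`
  have hsub : Tendsto (fun m : ℕ => 81 * m ^ 4) atTop atTop := by
    apply tendsto_atTop_mono (fun m : ℕ => ?_) tendsto_id
    have : m ≤ m ^ 4 := Nat.le_self_pow (by norm_num) m
    simp only [id]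
    omega
  have h1 : ∀ t : ℝ, ((ProbabilityTheory.gaussianReal 0 v) (Set.Iic t)).toReal = 1 := by
    intro t
    have h2 := (h t).comp hsub
    rw [← hv] at h2
    exact tendsto_nhds_unique h2 (to_one t)
  -- but it tends to `0` at `-∞`
  have h3 : Tendsto (fun k : ℕ => (ProbabilityTheory.gaussianReal 0 v) (Set.Iic (-(k : ℝ))))
      atTop (𝓝 ((ProbabilityTheory.gaussianReal 0 v) (⋂ k : ℕ, Set.Iic (-(k : ℝ))))) := by
    apply MeasureTheory.tendsto_measure_iInter_atTop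
    · exact fun k => measurableSet_Iic.nullMeasurableSet
    · intro a b hab
      apply Set.Iic_subset_Iic.2
      have : (a : ℝ) ≤ b := by exact_mod_cast hab
      linarith
    · exact ⟨0, MeasureTheory.measure_ne_top _ _⟩
  have h4 : (⋂ k : ℕ, Set.Iic (-(k : ℝ))) = (∅ : Set ℝ) := by
    ext x
    simp only [Set.mem_iInter, Set.mem_Iic, Set.mem_empty_iff_false, iff_false, not_forall,
      not_le]
    obtain ⟨k, hk⟩ := exists_nat_gt (-x)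
    exact ⟨k, by linarith⟩
  rw [h4, MeasureTheory.measure_empty] at h3
  have h5 : ∀ k : ℕ, (ProbabilityTheory.gaussianReal 0 v) (Set.Iic (-(k : ℝ))) = 1 := by
    intro k
    have := h1 (-(k : ℝ))
    rwa [ENNReal.toReal_eq_one_iff] at this
  simp only [h5] at h3
  exact one_ne_zero (tendsto_nhds_unique tendsto_const_nhds h3)

/-- **The conjectured central limit theorem fails.** -/
theorem result :
    (∃ C B δ : ℝ, 0 < C ∧ Bc C < B ∧ 0 < δ ∧ δ < 1 ∧ ¬ CLT B C δ) ∧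
    (Bc (1 / 3) = 3 ∧ ¬ CLT 7 (1 / 3) (3 / 4)) ∧
    Tendsto (fun m : ℕ => prob 7 (1 / 3) (3 / 4) (81 * m ^ 4)
      {s | 81 * m ^ 4 ≤ s + 2 * dd (3 / 4) (81 * m ^ 4)}) atTop (𝓝 0) ∧
    ∀ t : ℝ, Tendsto (fun m : ℕ => prob 7 (1 / 3) (3 / 4) (81 * m ^ 4)
      {s : ℕ | ((s : ℝ) - Bc (1 / 3) * (1 / 3) * ((81 * m ^ 4 : ℕ) : ℝ)) /
        Real.sqrt ((81 * m ^ 4 : ℕ) : ℝ) ≤ t}) atTop (𝓝 1) := by
  refine ⟨⟨1 / 3, 7, 3 / 4, by norm_num, ?_, by norm_num, by norm_num, not_CLT⟩,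
    ⟨Bc_third, not_CLT⟩, tail_tendsto, to_one⟩
  rw [Bc_third]; norm_num

end Pool.Agent.Results.MP_1d48d5_pr.BlockSumMeanShift
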